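import Mathlib

/-!
MP_5d193c: gluing of symmetric weights which are normalising at each scale.
-/

set_option autoImplicit false

namespace H23SN

open Finset

/-- If for every level `l` there are symmetric weights in `[lo, hi]` such that the weighted host has
density one on all rectangles of vertices of level at most `l`, up to `c 4 ^ l`, then there are such
weights for all levels at the same time, up to `3 c 4 ^ l`. -/
theorem multiscale {V : Type*} [Fintype V] [DecidableEq V] (e : V → V → ℝ) (lev : V → ℕ)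
    (lo hi c : ℝ) (hc : 0 ≤ c)
    (h : ∀ l : ℕ, ∃ w : V → V → ℝ, (∀ u v, w u v = w v u) ∧ (∀ u v, lo ≤ w u v ∧ w u v ≤ hi) ∧
      ∀ A B : Finset V, (∀ a ∈ A, lev a ≤ l) → (∀ b ∈ B, lev b ≤ l) →
        |∑ a ∈ A, ∑ b ∈ B, (w a b * e a b - 1)| ≤ c * 4 ^ l) :
    ∃ w : V → V → ℝ, (∀ u v, w u v = w v u) ∧ (∀ u v, lo ≤ w u v ∧ w u v ≤ hi) ∧
      ∀ (L : ℕ) (A B : Finset V), (∀ a ∈ A, lev a ≤ L) → (∀ b ∈ B, lev b ≤ L) →
        |∑ a ∈ A, ∑ b ∈ B, (w a b * e a b - 1)| ≤ 3 * c * 4 ^ L := by
  choose W hsym hb hW using h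
  refine ⟨fun u v => W (max (lev u) (lev v)) u v, ?_, ?_, ?_⟩
  · intro u v
    simp only [max_comm (lev u) (lev v), hsym _ u v]
  · intro u v
    exact hb _ u v
  · intro L
    induction L with
    | zero =>
      intro A B hA hB
      have h1 : ∑ a ∈ A, ∑ b ∈ B, (W (max (lev a) (lev b)) a b * e a b - 1) =
          ∑ a ∈ A, ∑ b ∈ B, (W 0 a b * e a b - 1) := by
        refine Finset.sum_congr rfl fun a ha => Finset.sum_congr rfl fun b hb => ?_
        have h2 : max (lev a) (lev b) = 0 := by
          have := hA a ha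
          have := hB b hb
          omega
        rw [h2]
      rw [h1]
      have h3 := hW 0 A B hA hB
      rw [pow_zero, mul_one] at h3 ⊢
      linarith
    | succ L ih =>
      intro A B hA hB
      set A' := A.filter fun a => lev a ≤ L with hA'
      set B' := B.filter fun b => lev b ≤ L with hB'
      have hA1 : ∀ a ∈ A', lev a ≤ L := fun a ha => (Finset.mem_filter.1 ha).2
      have hB1 : ∀ b ∈ B', lev b ≤ L := fun b hb => (Finset.mem_filter.1 hb).2
      have hAs : A' ⊆ A := Finset.filter_subset _ _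
      have hBs : B' ⊆ B := Finset.filter_subset _ _
      have key : ∑ a ∈ A, ∑ b ∈ B, (W (max (lev a) (lev b)) a b * e a b - 1) =
          ∑ a ∈ A', ∑ b ∈ B', (W (max (lev a) (lev b)) a b * e a b - 1) +
          (∑ a ∈ A, ∑ b ∈ B, (W (L + 1) a b * e a b - 1) -
            ∑ a ∈ A', ∑ b ∈ B', (W (L + 1) a b * e a b - 1)) := by
        rw [← Finset.sum_product', ← Finset.sum_product', ← Finset.sum_product',
          ← Finset.sum_product']
        have hsub : A' ×ˢ B' ⊆ A ×ˢ B := Finset.product_subset_product hAs hBs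
        rw [← Finset.sum_sdiff hsub, ← Finset.sum_sdiff hsub (f := fun x : V × V =>
          W (L + 1) x.1 x.2 * e x.1 x.2 - 1), add_sub_cancel_right, add_comm]
        congr 1
        refine Finset.sum_congr rfl fun x hx => ?_
        rw [Finset.mem_sdiff, Finset.mem_product, Finset.mem_product] at hx
        have h1 := hA _ hx.1.1
        have h2 := hB _ hx.1.2
        have h3 : ¬ (lev x.1 ≤ L ∧ lev x.2 ≤ L) := by
          intro h4
          exact hx.2 ⟨Finset.mem_filter.2 ⟨hx.1.1, h4.1⟩, Finset.mem_filter.2 ⟨hx.1.2, h4.2⟩⟩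
        have h5 : max (lev x.1) (lev x.2) = L + 1 := by omega
        rw [h5]
      have e1 := ih A' B' hA1 hB1
      have e2 := hW (L + 1) A B hA hB
      have e3 := hW (L + 1) A' B' (fun a ha => hA a (hAs ha)) (fun b hb => hB b (hBs hb))
      have e4 : (0 : ℝ) ≤ c * 4 ^ L := mul_nonneg hc (pow_nonneg (by norm_num) _)
      rw [key]
      rw [pow_succ] at e2 e3 ⊢
      rw [abs_le] at e1 e2 e3 ⊢
      constructor <;> nlinarith [e1.1, e1.2, e2.1, e2.2, e3.1, e3.2]

end H23SN
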